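import Pool.Agent.MP_ee8c61_ag.M3CH.SpecP
import Pool.Agent.MP_ee8c61_ag.M3FG.RGOR

/-!
The lattice points of a cell form a finitely generated monoid.
-/

namespace Pool.Agent.MP_ee8c61_ag.M3CH

open Finset

theorem cell_clear {J : Type} [Fintype J] (y : Fm J) :
    ∃ (n : ℕ) (l : (J → ℤ) →+ ℤ), 0 < n ∧ ∀ c, (l c : ℚ) = n * y (qq c) := by
  classical
  obtain ⟨b, hb⟩ := IsLocalization.exist_integer_multiples_of_finite (nonZeroDivisors ℤ)
    (fun j : J => y (Pi.single j 1))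
  choose z hz using hb
  have hb0 : (b : ℤ) ≠ 0 := nonZeroDivisors.coe_ne_zero b
  refine ⟨((b : ℤ) * b).natAbs, ∑ j, ((b : ℤ) * z j) • (Pi.evalAddMonoidHom (fun _ : J => ℤ) j),
    Int.natAbs_pos.2 (mul_ne_zero hb0 hb0), fun c => ?_⟩
  have h1 : ((((b : ℤ) * b).natAbs : ℕ) : ℚ) = ((b : ℤ) : ℚ) * ((b : ℤ) : ℚ) := by
    have := Int.natAbs_of_nonneg (mul_self_nonneg (b : ℤ))
    rw [← Int.cast_natCast, this, Int.cast_mul]
  have h2 : qq c = ∑ j, (c j : ℚ) • (Pi.single j 1 : J → ℚ) := by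
    funext k
    simp [qq, Finset.sum_apply, Pi.single_apply]
  rw [h1, h2, map_sum, AddMonoidHom.finsetSum_apply, Finset.mul_sum]
  push_cast
  refine Finset.sum_congr rfl fun j _ => ?_
  have h3 : (z j : ℚ) = ((b : ℤ) : ℚ) * y (Pi.single j 1) := by
    have := hz j
    simpa using this
  simp only [Pi.smul_apply, Pi.evalAddMonoidHom_apply, smul_eq_mul, map_smul]
  push_cast
  rw [h3]
  ring

theorem rowCELL : StmtCELL := by
  intro J _ Wl x
  choose n l hn hl using fun w : Wl => cell_clear (w.1 x • w.1)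
  have key : ∀ c : J → ℤ, c ∈ M3FG.sol l ↔ qq c ∈ Cell Wl x := by
    intro c
    constructor
    · intro h w hw
      have h1 : (0 : ℚ) ≤ (l ⟨w, hw⟩ c : ℚ) := by exact_mod_cast h ⟨w, hw⟩
      rw [hl] at h1
      have h2 : (0 : ℚ) < n ⟨w, hw⟩ := by exact_mod_cast hn ⟨w, hw⟩
      simpa using nonneg_of_mul_nonneg_right h1 h2
    · intro h w
      have h1 : (0 : ℚ) ≤ (l w c : ℚ) := by
        rw [hl]
        exact mul_nonneg (Nat.cast_nonneg _) (by simpa using h w.1 w.2)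
      exact_mod_cast h1
  have : AddMonoid.FG (J → ℤ) :=
    AddGroup.fg_iff_addMonoid_fg.1 (Module.Finite.iff_addGroup_fg.1 inferInstance)
  obtain ⟨U, hU⟩ := M3FG.rowGOR (J → ℤ) Wl l
  refine ⟨U, fun u hu => (key u).1 ?_, fun c hc => ?_⟩
  · rw [← hU]
    exact AddSubmonoid.subset_closure hu
  · rw [hU]
    exact (key c).2 hc

end Pool.Agent.MP_ee8c61_ag.M3CH
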