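import Pool.Agent.MP_ee8c61_ag.M3CH.SpecP

/-! Row COV: finitely many boxes cover the segment. -/

set_option autoImplicit false

namespace Pool.Agent.MP_ee8c61_ag.M3CH

open Finset

namespace RCOV

theorem ex_min {J : Type} [Fintype J] (b : J → ℚ) (hb : ∀ j, 0 < b j) :
    ∃ m : ℚ, 0 < m ∧ ∀ j, m ≤ b j := by
  rcases isEmpty_or_nonempty J with hJ | hJ
  · exact ⟨1, one_pos, fun j => hJ.elim j⟩
  · obtain ⟨i, -, hi⟩ := Finset.univ.exists_min_image b Finset.univ_nonempty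
    exact ⟨b i, hb i, fun j => hi j (mem_univ j)⟩

theorem step (σ t : ℚ) (hσ : 0 < σ) (ht : -σ ≤ t) :
    |((⌊t / σ⌋₊ : ℚ) + 1) * σ - t| ≤ 2 * σ := by
  have h1 : t / σ < (⌊t / σ⌋₊ : ℚ) + 1 := Nat.lt_floor_add_one _
  rw [div_lt_iff₀ hσ] at h1
  rw [abs_of_nonneg (by linarith)]
  rcases le_or_gt 0 t with h | h
  · have h2 : (⌊t / σ⌋₊ : ℚ) ≤ t / σ := Nat.floor_le (div_nonneg h hσ.le)
    rw [le_div_iff₀ hσ] at h2
    linarith
  · rw [Nat.floor_of_nonpos (div_nonpos_of_nonpos_of_nonneg h.le hσ.le)]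
    push_cast
    linarith

end RCOV

theorem rowCOV : StmtCOV := by
  intro J _ a H T ha
  have hA : 0 ≤ ∑ j, a j := sum_nonneg fun j _ => (ha j).le
  set e : ℚ := 1 / (4 * (∑ j, a j + 1)) with he
  have he0 : 0 < e := by positivity
  have heA : e * ∑ j, a j ≤ 1 / 4 := by
    rw [he, div_mul_eq_mul_div, div_le_div_iff₀ (by positivity) (by norm_num)]
    linarith
  obtain ⟨m, hm0, hm⟩ := RCOV.ex_min (fun j => e * a j) fun j => mul_pos he0 (ha j)
  have hB0 : 0 ≤ ∑ j, |H j| := sum_nonneg fun j _ => abs_nonneg _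
  set B : ℚ := ∑ j, |H j| + 1 with hB
  have hBp : 0 < B := by positivity
  have hHB : ∀ j, |H j| ≤ B := fun j => by
    have := single_le_sum (f := fun j => |H j|) (fun j _ => abs_nonneg _) (mem_univ j)
    linarith
  set σ : ℚ := m / (4 * B) with hσ
  have hσ0 : 0 < σ := by positivity
  have hT : 0 < |T| + σ := by positivity
  set γ : ℚ := m / (2 * (|T| + σ)) with hγ
  have hγ0 : 0 < γ := by positivity
  have e1 : 2 * σ * B = m / 2 := by rw [hσ]; field_simp; norm_num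
  have e2 : (|T| + σ) * γ = m / 2 := by rw [hγ]; field_simp
  refine ⟨σ, γ, σ, ⌊|T| / σ⌋₊ + 1, hσ0, hγ0, hσ0, fun h hh t ht1 ht2 => ?_⟩
  have hs : ⌊t / σ⌋₊ < ⌊|T| / σ⌋₊ + 1 :=
    Nat.lt_succ_of_le (Nat.floor_le_floor
      (div_le_div_of_nonneg_right (ht2.trans (le_abs_self T)) hσ0.le))
  have htabs : |t| ≤ |T| + σ := by
    have h1 := le_abs_self T
    have h2 := abs_nonneg T
    rw [abs_le]
    constructor <;> linarith
  have key : ∀ j, |((⌊t / σ⌋₊ : ℚ) + 1) * σ * H j - t * h j| ≤ e * a j := fun j => by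
    have h1 : ((⌊t / σ⌋₊ : ℚ) + 1) * σ * H j - t * h j =
        (((⌊t / σ⌋₊ : ℚ) + 1) * σ - t) * H j - t * (h j - H j) := by ring
    have h2 : |(((⌊t / σ⌋₊ : ℚ) + 1) * σ - t) * H j| ≤ 2 * σ * B := by
      rw [abs_mul]
      exact mul_le_mul (RCOV.step σ t hσ0 ht1) (hHB j) (abs_nonneg _) (by positivity)
    have h3 : |t * (h j - H j)| ≤ (|T| + σ) * γ := by
      rw [abs_mul]
      exact mul_le_mul htabs (hh j).le (abs_nonneg _) hT.le
    have h4 := abs_sub ((((⌊t / σ⌋₊ : ℚ) + 1) * σ - t) * H j) (t * (h j - H j))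
    have h5 : m ≤ e * a j := hm j
    rw [h1]
    linarith
  refine ⟨⟨_, hs⟩, e, fun j => ((⌊t / σ⌋₊ : ℚ) + 1) * σ * H j - t * h j + e * a j,
    fun j => ?_, ?_, ?_⟩
  · have := (abs_le.1 (key j)).1
    simp only [Pi.zero_apply]
    linarith
  · have h1 : ∑ j, (((⌊t / σ⌋₊ : ℚ) + 1) * σ * H j - t * h j + e * a j) ≤
        ∑ j, 2 * (e * a j) := sum_le_sum fun j _ => by
      have := (abs_le.1 (key j)).2
      linarith
    rw [← mul_sum, ← mul_sum] at h1
    linarith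
  · funext j
    simp only [Pi.smul_apply, Pi.add_apply, Pi.sub_apply, smul_eq_mul]
    ring

end Pool.Agent.MP_ee8c61_ag.M3CH
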