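import Pool.Agent.MP_ee8c61_ag.M3CH.SpecP

/-! Row GEN: a generic direction. -/

namespace Pool.Agent.MP_ee8c61_ag.M3CH

open Finset

namespace RGEN

theorem avoid {J : Type} [Fintype J] (Z : Finset (Fm J)) (H : J → ℚ) {γ : ℚ} (hγ : 0 < γ)
    (hZ : ∀ z ∈ Z, z ≠ 0) : ∃ h : J → ℚ, (∀ j, |h j - H j| < γ) ∧ ∀ z ∈ Z, z h ≠ 0 := by
  classical
  obtain ⟨h1, hh⟩ := Module.Dual.exists_forall_ne_zero_of_forall_exists
    (fun z : Z => (z.1 : Module.Dual ℚ (J → ℚ))) fun z => by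
      by_contra hc
      push Not at hc
      exact hZ z.1 z.2 (LinearMap.ext hc)
  have hB : 0 < ∑ j, |h1 j| + 1 := by positivity
  obtain ⟨s, hs, hs'⟩ := (Set.Ioo_infinite (div_pos hγ hB)).exists_notMem_finset
    (Z.image fun z => -z H / z h1)
  refine ⟨H + s • h1, fun j => ?_, fun z hz h0 => hs' (mem_image.2 ⟨z, hz, ?_⟩)⟩
  · have h2 : |h1 j| ≤ ∑ j, |h1 j| :=
      single_le_sum (f := fun j => |h1 j|) (fun _ _ => abs_nonneg _) (mem_univ j)
    have h3 := (lt_div_iff₀ hB).1 hs.2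
    rw [Pi.add_apply, add_sub_cancel_left, Pi.smul_apply, smul_eq_mul, abs_mul, abs_of_pos hs.1]
    nlinarith [hs.1]
  · rw [map_add, map_smul, smul_eq_mul] at h0
    rw [div_eq_iff (hh ⟨z, hz⟩)]
    linarith

end RGEN

theorem rowGEN : StmtGEN := by
  intro J _ Wl ν H γ hγ hW
  classical
  obtain ⟨h, h1, h2⟩ := RGEN.avoid
    (Wl ∪ ((Wl ×ˢ Wl).image fun p => p.1 ν • p.2 - p.2 ν • p.1).filter (· ≠ 0)) H hγ fun z hz => by
      rcases mem_union.1 hz with hz | hz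
      · exact hW z hz
      · exact (mem_filter.1 hz).2
  have h3 : ∀ w ∈ Wl, w h ≠ 0 := fun w hw => h2 w (mem_union_left _ hw)
  refine ⟨h, h1, h3, fun w hw w' hw' t ht e e' => ?_⟩
  rw [map_add, map_smul, smul_eq_mul] at e e'
  have hf : w ν • w' - w' ν • w = 0 := by
    by_contra hne
    refine h2 _ (mem_union_right _ (mem_filter.2
      ⟨mem_image.2 ⟨(w, w'), mem_product.2 ⟨hw, hw'⟩, rfl⟩, hne⟩)) ?_
    rw [LinearMap.sub_apply, LinearMap.smul_apply, LinearMap.smul_apply, smul_eq_mul, smul_eq_mul]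
    linear_combination w' h * e - w h * e'
  have h0 : w ν ≠ 0 := fun h0 => mul_ne_zero ht (h3 w hw) (by linarith)
  refine ⟨w' ν / w ν, LinearMap.ext fun x => ?_⟩
  have := LinearMap.congr_fun hf x
  rw [LinearMap.sub_apply, LinearMap.smul_apply, LinearMap.smul_apply, smul_eq_mul, smul_eq_mul,
    LinearMap.zero_apply] at this
  rw [LinearMap.smul_apply, smul_eq_mul, div_mul_eq_mul_div, eq_div_iff h0]
  linarith

end Pool.Agent.MP_ee8c61_ag.M3CH
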