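import Pool.Agent.MP_ee8c61_ag.M3CH.RARR

/-!
A segment in an arrangement of hyperplanes.
-/

namespace Pool.Agent.MP_ee8c61_ag.M3CH

open Finset

variable {J : Type} {Wl : Finset (Fm J)}

theorem Cell.add {x d d' : J → ℚ} (h : d ∈ Cell Wl x) (h' : d' ∈ Cell Wl x) :
    d + d' ∈ Cell Wl x := fun w hw => by
  rw [map_add, mul_add]
  exact add_nonneg (h w hw) (h' w hw)

theorem Cell.smul {x d : J → ℚ} (h : d ∈ Cell Wl x) {t : ℚ} (ht : 0 ≤ t) :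
    t • d ∈ Cell Wl x := fun w hw => by
  rw [map_smul, smul_eq_mul, mul_left_comm]
  exact mul_nonneg ht (h w hw)

theorem Cell.near {x y : J → ℚ} (hx : Off Wl x) (hy : y ∈ Cell Wl x) (u : J → ℚ)
    (hu : ∀ w ∈ Wl, w y = 0 → w u = 0) : ∃ δ : ℚ, 0 < δ ∧ y + δ • u ∈ Cell Wl x := by
  classical
  obtain ⟨s, h1, h2⟩ := ARR.small (Wl.filter fun w => w y ≠ 0) (α := fun w => w x * w y)
    (fun w => -(w x * w u)) fun w hw => lt_of_le_of_ne (hy w (mem_filter.1 hw).1)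
      (mul_ne_zero (hx w (mem_filter.1 hw).1) (mem_filter.1 hw).2).symm
  refine ⟨s, h1, fun w hw => ?_⟩
  rw [map_add, map_smul, smul_eq_mul]
  by_cases e : w y = 0
  · simp [e, hu w hw e]
  · have := h2 w (mem_filter.2 ⟨hw, e⟩)
    nlinarith

theorem den [Fintype J] (d : J → ℚ) : ∃ (m : ℕ) (c : J → ℤ), 0 < m ∧ qq c = (m : ℚ) • d := by
  classical
  refine ⟨∏ j, (d j).den, fun j => (∏ i ∈ univ.erase j, ((d i).den : ℤ)) * (d j).num,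
    prod_pos fun j _ => (d j).den_pos, funext fun j => ?_⟩
  rw [← prod_erase_mul _ _ (mem_univ j)]
  simp only [qq, Pi.smul_apply, smul_eq_mul]
  push_cast
  rw [mul_assoc, Rat.den_mul_eq_num]

theorem seg (ν h : J → ℚ) (hw : ∀ w ∈ Wl, w h ≠ 0) {T δ : ℚ} (hT : 0 < T) (hδ : 0 < δ)
    (L : ℚ → Prop) (hL : ∀ s, T - δ ≤ s → s ≤ T → L s) :
    ∃ t s : ℚ, 0 ≤ t ∧ t < s ∧ s ≤ T ∧ L s ∧ Off Wl (ν + s • h) ∧
      ν + t • h ∈ Cell Wl (ν + s • h) ∧ (t = 0 ∨ (0 < t ∧ (∃ w ∈ Wl, w (ν + t • h) = 0) ∧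
        ∃ s0, s0 < t ∧ ∀ s', s0 < s' → s' < t → ¬L s')) := by
  classical
  let Tm : Finset ℚ := insert 0 (Wl.image fun w => -w ν / w h)
  have ev : ∀ w ∈ Wl, ∀ s : ℚ, w (ν + s • h) = (s - -w ν / w h) * w h := fun w h1 s => by
    have := hw w h1
    rw [map_add, map_smul, smul_eq_mul]
    field_simp
    ring
  have mx : ∀ t : ℚ, 0 < t → ∃ u ∈ Tm, 0 ≤ u ∧ u < t ∧ ∀ u' ∈ Tm, u' < t → u' ≤ u :=
    fun t ht => by
      obtain ⟨u, h1, h2⟩ := exists_max_image (Tm.filter (· < t)) id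
        ⟨0, mem_filter.2 ⟨mem_insert_self _ _, ht⟩⟩
      exact ⟨u, (mem_filter.1 h1).1, h2 0 (mem_filter.2 ⟨mem_insert_self _ _, ht⟩),
        (mem_filter.1 h1).2, fun u' k1 k2 => h2 u' (mem_filter.2 ⟨k1, k2⟩)⟩
  let A : ℚ → Prop := fun t => 0 ≤ t ∧ ∃ s, t < s ∧ s ≤ T ∧ (∀ u ∈ Tm, u ≤ s → u ≤ t) ∧ L s
  obtain ⟨t, ht, hm⟩ := exists_min_image (Tm.filter A) id (by
    obtain ⟨u, h1, h2, h3, h4⟩ := mx T hT
    have k : max ((u + T) / 2) (T - δ) < T := max_lt (by linarith) (by linarith)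
    exact ⟨u, mem_filter.2 ⟨h1, h2, max ((u + T) / 2) (T - δ), lt_max_of_lt_left (by linarith),
      k.le, fun u' k1 k2 => h4 u' k1 (k2.trans_lt k), hL _ (le_max_right _ _) k.le⟩⟩)
  obtain ⟨h1, h2, s, h3, h4, h5, h6⟩ := mem_filter.1 ht
  have hm' : ∀ w ∈ Wl, -w ν / w h ∈ Tm := fun w k =>
    mem_insert_of_mem (mem_image_of_mem (fun w : Fm J => -w ν / w h) k)
  refine ⟨t, s, h2, h3, h4, h6, fun w k e => ?_, fun w k => ?_, ?_⟩
  · rw [ev w k, mul_eq_zero, sub_eq_zero] at e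
    have e' := e.resolve_right (hw w k)
    exact (h5 _ (hm' w k) e'.ge).not_gt (e' ▸ h3)
  · rw [ev w k, ev w k, mul_mul_mul_comm]
    refine mul_nonneg ?_ (mul_self_nonneg _)
    rcases le_total (-w ν / w h) s with e | e
    · exact mul_nonneg (sub_nonneg.2 e) (sub_nonneg.2 (h5 _ (hm' w k) e))
    · exact mul_nonneg_of_nonpos_of_nonpos (sub_nonpos.2 e) (sub_nonpos.2 (h3.le.trans e))
  · rcases h2.eq_or_lt with e | e
    · exact Or.inl e.symm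
    obtain ⟨w, k1, k2⟩ := mem_image.1 ((mem_insert.1 h1).resolve_left e.ne')
    obtain ⟨u, k3, k4, k5, k6⟩ := mx t e
    refine Or.inr ⟨e, ⟨w, k1, by rw [ev w k1, k2, sub_self, zero_mul]⟩, u, k5,
      fun s' k7 k8 k9 => k5.not_ge (hm u (mem_filter.2 ⟨k3, k4, s', k7, by linarith,
        fun u' a1 a2 => k6 u' a1 (a2.trans_lt k8), k9⟩))⟩

end Pool.Agent.MP_ee8c61_ag.M3CH
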