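import Mathlib

/-!
Cells of an arrangement of rational hyperplanes. Statements without geometry.
-/

namespace Pool.Agent.MP_ee8c61_ag.M3CH

open Finset

/-- Linear forms. -/
abbrev Fm (J : Type) : Type := (J → ℚ) →ₗ[ℚ] ℚ

/-- The closed cell of the arrangement `Wl` that contains the point `x`. -/
def Cell {J : Type} (Wl : Finset (Fm J)) (x : J → ℚ) : Set (J → ℚ) :=
  {d | ∀ w ∈ Wl, 0 ≤ w x * w d}

/-- The point `x` lies on no hyperplane of the arrangement. -/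
def Off {J : Type} (Wl : Finset (Fm J)) (x : J → ℚ) : Prop := ∀ w ∈ Wl, w x ≠ 0

/-- The forms are nonzero and vanish at `a`. -/
def Arr {J : Type} (Wl : Finset (Fm J)) (a : J → ℚ) : Prop := ∀ w ∈ Wl, w ≠ 0 ∧ w a = 0

/-- An integral vector as a rational vector. -/
def qq {J : Type} (c : J → ℤ) : J → ℚ := fun j => c j

theorem Cell.mono {J : Type} {Wl Wl' : Finset (Fm J)} (h : Wl ⊆ Wl') (x : J → ℚ) :
    Cell Wl' x ⊆ Cell Wl x := fun _ hd w hw => hd w (h hw)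

theorem Off.mono {J : Type} {Wl Wl' : Finset (Fm J)} (h : Wl ⊆ Wl') {x : J → ℚ}
    (hx : Off Wl' x) : Off Wl x := fun w hw => hx w (h hw)

theorem Cell.self {J : Type} (Wl : Finset (Fm J)) (x : J → ℚ) : x ∈ Cell Wl x :=
  fun _ _ => mul_self_nonneg _

/-- Linear programming: the optimal value is linear on the cells of an arrangement that depends
only on the columns. -/
def StmtARR : Prop :=
  ∀ (J ι : Type) [Fintype J] [Fintype ι] (c : ι → J → ℚ) (a : J → ℚ),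
    ∃ Wl : Finset (Fm J), Arr Wl a ∧ ∀ (ω : ι → ℚ) (ωa : ℚ),
      (∀ (α : ι → ℚ) (τ : ℚ), 0 ≤ α → ∑ i, α i • c i + τ • a = 0 →
        0 ≤ ∑ i, α i * ω i + τ * ωa) →
      ∀ x, Off Wl x → (∃ (α : ι → ℚ) (τ : ℚ), 0 ≤ α ∧ x = ∑ i, α i • c i + τ • a) →
      ∃ (y : Fm J) (S : Finset ι), y a = ωa ∧ (∀ i, y (c i) ≤ ω i) ∧ (∀ i ∈ S, y (c i) = ω i) ∧
        ∀ d ∈ Cell Wl x, ∃ (α : ι → ℚ) (τ : ℚ), 0 ≤ α ∧ (∀ i ∉ S, α i = 0) ∧
          d = ∑ i, α i • c i + τ • a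

/-- A generic direction: the line through `ν` meets non-proportional hyperplanes at different
times, except possibly at `ν` itself. -/
def StmtGEN : Prop :=
  ∀ (J : Type) [Fintype J] (Wl : Finset (Fm J)) (ν H : J → ℚ) (γ : ℚ), 0 < γ →
    (∀ w ∈ Wl, w ≠ 0) → ∃ h : J → ℚ, (∀ j, |h j - H j| < γ) ∧ (∀ w ∈ Wl, w h ≠ 0) ∧
      ∀ w ∈ Wl, ∀ w' ∈ Wl, ∀ t : ℚ, t ≠ 0 → w (ν + t • h) = 0 → w' (ν + t • h) = 0 →
        ∃ s : ℚ, w' = s • w

/-- Finitely many boxes cover the segment, for all directions near `H`. -/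
def StmtCOV : Prop :=
  ∀ (J : Type) [Fintype J] (a H : J → ℚ) (T : ℚ), (∀ j, 0 < a j) →
    ∃ (ε γ σ : ℚ) (n : ℕ), 0 < ε ∧ 0 < γ ∧ 0 < σ ∧ ∀ h : J → ℚ, (∀ j, |h j - H j| < γ) →
      ∀ t : ℚ, -ε ≤ t → t ≤ T → ∃ (s : Fin n) (r : ℚ) (u : J → ℚ), 0 ≤ u ∧ ∑ j, u j ≤ 1 / 2 ∧
        t • h = ((((s : ℕ) : ℚ) + 1) * σ) • H - u + r • a

/-- The lattice points of a cell form a finitely generated monoid. -/
def StmtCELL : Prop :=
  ∀ (J : Type) [Fintype J] (Wl : Finset (Fm J)) (x : J → ℚ), ∃ U : Finset (J → ℤ),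
    (∀ u ∈ U, qq u ∈ Cell Wl x) ∧
      ∀ c : J → ℤ, qq c ∈ Cell Wl x → c ∈ AddSubmonoid.closure (U : Set (J → ℤ))

end Pool.Agent.MP_ee8c61_ag.M3CH
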