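import Pool.Agent.MP_ee8c61_ag.M3.Frame
import Pool.Agent.MP_ee8c61_ag.M3E.Asm
import Pool.Agent.MP_ee8c61_ag.M3K.RKa
import Pool.Agent.MP_ee8c61_ag.M3K.RNg0

/-! Generators of the semiample divisors of a chamber. -/

namespace Pool.Agent.MP_ee8c61_ag.M3CH

open M3 M3E M3K Finset

namespace RIAS

variable {N : ℕ} {f : Po N} {M : Mod N}

theorem eps (C : Ch f M) {x : M.J → ℚ} (h : Inn C.U x) (u : M.J → M.J → ℚ) :
    ∃ ε : ℚ, 0 < ε ∧ ∀ j, Inn C.U (x + ε • u j) := by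
  choose δ h1 h2 using fun j => h (u j)
  have h3 : 0 ≤ ∑ j, (δ j)⁻¹ := sum_nonneg fun j _ => (inv_pos.2 (h1 j)).le
  have h4 : 0 < ∑ j, (δ j)⁻¹ + 1 := by linarith
  refine ⟨(∑ j, (δ j)⁻¹ + 1)⁻¹, inv_pos.2 h4, fun j => ?_⟩
  have h5 : (δ j)⁻¹ ≤ ∑ j, (δ j)⁻¹ :=
    single_le_sum (f := fun j => (δ j)⁻¹) (fun j _ => (inv_pos.2 (h1 j)).le) (mem_univ j)
  have h6 : (∑ j, (δ j)⁻¹ + 1)⁻¹ * (δ j)⁻¹ < 1 := by
    rw [inv_mul_lt_iff₀ h4]; linarith
  have h7 := RKa.inn_add C (RKa.inn_smul C h (sub_pos.2 h6))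
    (C.smul _ (h2 j) _ (mul_pos (inv_pos.2 h4) (inv_pos.2 (h1 j))))
  rwa [smul_add, smul_smul, inv_mul_cancel_right₀ (h1 j).ne', ← add_assoc, ← add_smul,
    sub_add_cancel, one_smul] at h7

theorem semi_aa (hE : EOut) (hM : M.OK f) (r : ℚ) : M.SemiQ (r • M.q M.aa) :=
  ⟨r.den, r.num • M.aa, r.den_pos, (hE.bas N f M hM).free_aa _, by
    rw [M.q_zsmul, ← Nat.cast_smul_eq_nsmul ℚ, smul_smul, Rat.den_mul_eq_num]⟩

theorem semi (hE : EOut) (hM : M.OK f) (C : Ch f M) {d : M.J → ℚ} (hd : d ∈ C.U) (r : ℚ) :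
    C.W.SemiQ (C.P (d + r • M.q M.aa)) := by
  have A := rowKa hE (rowNg0 hE) N f M C hM
  rw [map_add, map_smul, A.aa]
  exact (hE.aq N f C.W C.ok).add' _ _ (A.semi d hd) (semi_aa hE C.ok r)

theorem common (hE : EOut) (hM : M.OK f) {ι : Type} [Fintype ι] (A : ι → M.J → ℚ)
    (h : ∀ i, M.SemiQ (A i)) : ∃ m : ℕ, 0 < m ∧ ∀ i, ∃ w T, M.Gens w T ∧ M.q w = m • A i := by
  choose μ h1 h2 using fun i => (hE.aq N f M hM).mult _ (h i)
  refine ⟨∏ i, μ i, prod_pos fun i _ => h1 i, fun i => ?_⟩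
  obtain ⟨r, hr⟩ := dvd_prod_of_mem μ (mem_univ i)
  obtain ⟨w, ⟨T, hT⟩, e⟩ := h2 i r
  exact ⟨w, T, hT, hr ▸ e⟩

theorem pt_eq {f : Po 3} {M : Mod 3} (C : Ch f M) (la : ℚ) (o : M.J) (t : ℚ) (u : M.J → ℚ) :
    C.pt la o t + u = M.nu + t • C.h + u + (-(la + t * (C.h o / M.a o))) • M.q M.aa :=
  funext fun j => by
    simp only [Ch.pt, Ch.hp, Mod.ex, Mod.nu, Mod.q, Mod.aa, Pi.add_apply, Pi.sub_apply,
      Pi.smul_apply, smul_eq_mul, Int.cast_natCast]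
    ring

end RIAS

open RIAS in
theorem rIAS : M3E.EOut → M3.IAS := by
  intro hE f la M C o hM _
  obtain ⟨s, hs, hi⟩ := C.inn
  obtain ⟨ε, e0, he⟩ := eps C hi fun j => M.q (M.e j)
  obtain ⟨m, m0, h⟩ := common hE C.ok (ι := Option (Option M.J))
    (fun i => C.P (i.elim (C.pt la o C.t) fun k => k.elim (C.pt la o s)
      fun j => C.pt la o s + ε • M.q (M.e j))) (by
      rintro (_ | _ | j)
      · have := semi hE hM C C.mem (-(la + C.t * (C.h o / M.a o)))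
        rwa [← add_zero (M.nu + _), ← pt_eq, add_zero] at this
      · have := semi hE hM C (RKa.inn_mem C hi) (-(la + s * (C.h o / M.a o)))
        rwa [← add_zero (M.nu + _), ← pt_eq, add_zero] at this
      · have := semi hE hM C (RKa.inn_mem C (he j)) (-(la + s * (C.h o / M.a o)))
        rwa [← pt_eq] at this)
  choose w T h1 h2 using h
  exact ⟨⟨s, ε, m, w none, w (some none), fun j => w (some (some j)), T none, T (some none),
    fun j => T (some (some j))⟩, hs, hi, e0, he, m0, h2 _, h2 _, fun _ => h2 _, h1 _, h1 _,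
    fun _ => h1 _⟩

end Pool.Agent.MP_ee8c61_ag.M3CH
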