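import Pool.Agent.MP_ee8c61_ag.M3CH.Spec
import Pool.Agent.MP_ee8c61_ag.M3CH.RSeg

/-!
Divisors that are not contracted on a cell.
-/

namespace Pool.Agent.MP_ee8c61_ag.M3CH

open M3 M3E Finset

variable {N : ℕ} {f : Po N} {M W : Mod N} {r : ℕ} {Wl : Finset (Fm M.J)} {x : M.J → ℚ}
  {P : (M.J → ℚ) →ₗ[ℚ] (W.J → ℚ)}

/-- Some section of a multiple of `x` does not vanish along the divisor `o`. -/
def Live (M : Mod N) (o : M.J) (x : M.J → ℚ) : Prop := ∃ (m : ℕ) (c : M.J → ℤ), 0 < m ∧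
  M.q c = m • x ∧ ∃ g ∈ M.H c, g ∉ (M.v o).F (1 - c o)

theorem live_of_semi (B : Bas f M) (o : M.J) (h : M.SemiQ x) : Live M o x := by
  obtain ⟨μ, w, h1, ⟨T, h2, h3⟩, h4⟩ := h
  obtain ⟨g, k1, k2⟩ := h3 _ (B.ov_v o)
  obtain ⟨k3, k4⟩ := (B.gen_v _ _ _).1 k2
  exact ⟨μ, w, h1, h4, g, h2 g k1, fun e => e.elim k3 fun e => by omega⟩

theorem Mov.mult (h : Mov M W r (Cell Wl x) P) (hr : 0 < r) {d : M.J → ℚ} (hd : d ∈ Cell Wl x) :
    ∃ (m : ℕ) (c : M.J → ℤ) (c' : W.J → ℤ), 0 < m ∧ M.q c = m • d ∧ W.q c' = m • P d ∧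
      W.Free c' ∧ ∀ n : ℕ, M.H (n • c) = W.H (n • c') := by
  obtain ⟨m, c, hm, hc⟩ := den d
  have hc' : M.q c = (m : ℚ) • d := hc
  have hmem : ∀ n : ℕ, M.q (n • c) ∈ Cell Wl x := fun n => by
    rw [Mod.q_nsmul, hc', ← Nat.cast_smul_eq_nsmul ℚ]
    exact Cell.smul (Cell.smul hd (Nat.cast_nonneg _)) (Nat.cast_nonneg _)
  obtain ⟨c', h1, h2, -⟩ := h.2 c (by simpa using hmem 1)
  have e : M.q (r • c) = (r * m) • d := by
    rw [Mod.q_nsmul, hc', Nat.cast_smul_eq_nsmul, mul_smul]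
  refine ⟨r * m, r • c, c', Nat.mul_pos hr hm, e, by rw [h1, e, map_nsmul], h2, fun n => ?_⟩
  obtain ⟨c'', k1, -, k2⟩ := h.2 (n • c) (hmem n)
  rw [smul_comm n r c, ← k2]
  congr 1
  apply Mod.q_inj
  rw [k1, Mod.q_nsmul W, h1, smul_comm r n c, Mod.q_nsmul M n, map_nsmul]

theorem Mov.alive (BM : Bas f M) (BW : Bas f W) (D : Dom W M) (h : Mov M W r (Cell Wl x) P)
    (hr : 0 < r) (hx : Off Wl x) {o : M.J} (hl : Live M o x) (u : M.J → ℚ) :
    P u (D.e o) = u o := by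
  have le : ∀ d ∈ Cell Wl x, P d (D.e o) ≤ d o := fun d hd => by
    obtain ⟨m, c, c', h1, h2, h3, ⟨T, h4, h5⟩, h6⟩ := h.mult hr hd
    obtain ⟨g, k1, k2⟩ := h5 _ (BW.ov_v (D.e o))
    obtain ⟨k3, k4⟩ := (BW.gen_v _ _ _).1 k2
    have k5 : g ∈ M.H c := by
      have := h6 1
      rw [one_smul, one_smul] at this
      exact this ▸ h4 g k1
    have k6 := ((BM.oc_v o c g).1 (k5 _ (BM.ov_v o))).resolve_left k3
    rw [D.v] at k4
    have k7 : (c' (D.e o) : ℚ) ≤ c o := by exact_mod_cast (by omega : c' (D.e o) ≤ c o)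
    have k8 := congrFun h2 o
    have k9 := congrFun h3 (D.e o)
    simp only [Mod.q_apply, Pi.smul_apply, nsmul_eq_mul] at k8 k9
    rw [k8, k9] at k7
    exact le_of_mul_le_mul_left k7 (Nat.cast_pos.2 h1)
  have ge : x o ≤ P x (D.e o) := by
    obtain ⟨m0, c0, a1, a2, g, a3, a4⟩ := hl
    have a5 : M.q c0 ∈ Cell Wl x := by
      rw [a2, ← Nat.cast_smul_eq_nsmul ℚ]
      exact Cell.smul (Cell.self Wl x) (Nat.cast_nonneg _)
    obtain ⟨c', h1, -, h2⟩ := h.2 c0 a5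
    have g0 : g ≠ 0 := fun e => a4 (Or.inl e)
    have k1 : g ^ r ∈ W.H c' := h2 ▸ fun V hV => BM.oc_pow V _ _ r (a3 V hV)
    have k2 := ((BW.oc_v _ c' _).1 (k1 _ (BW.ov_v (D.e o)))).resolve_left (pow_ne_zero _ g0)
    rw [D.v, DV.pow] at k2
    have k3 : (M.v o).v g ≤ -c0 o := by
      by_contra e
      exact a4 (Or.inr (by omega))
    have k4 : (r : ℤ) * c0 o ≤ c' (D.e o) := by nlinarith
    have k5 : (r : ℚ) * c0 o ≤ c' (D.e o) := by exact_mod_cast k4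
    have k8 := congrFun a2 o
    have k9 := congrFun h1 (D.e o)
    rw [Mod.q_nsmul, a2, map_nsmul, map_nsmul] at k9
    simp only [Mod.q_apply, Pi.smul_apply, nsmul_eq_mul] at k8 k9
    rw [k8, k9] at k5
    exact le_of_mul_le_mul_left (le_of_mul_le_mul_left k5 (Nat.cast_pos.2 hr)) (Nat.cast_pos.2 a1)
  have key : ∀ u : M.J → ℚ, P u (D.e o) ≤ u o := fun u => by
    obtain ⟨δ, h1, h2⟩ := Cell.near hx (Cell.self Wl x) u fun w hw e => absurd e (hx w hw)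
    have := le _ h2
    rw [map_add, map_smul] at this
    simp only [Pi.add_apply, Pi.smul_apply, smul_eq_mul] at this
    exact le_of_mul_le_mul_left (by linarith) h1
  have := key (-u)
  rw [map_neg] at this
  exact le_antisymm (key u) (by simpa using this)

end Pool.Agent.MP_ee8c61_ag.M3CH
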