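import Pool.Agent.MP_ee8c61_ag.M3CH.Spec

/-!
The ample cone is open: from openness along each line to openness in the sup norm.
-/

namespace Pool.Agent.MP_ee8c61_ag.M3CH

open M3 M3E M3FG Finset

variable {N : ℕ}

theorem opn_line {M : Mod N} (h : Aq M) (A : M.J → ℚ) (hA : M.AmpQ A) (e : M.J → ℚ) :
    ∃ γ : ℚ, 0 < γ ∧ ∀ t : ℚ, |t| < γ → M.AmpQ (A + t • e) := by
  obtain ⟨a, ha, h1⟩ := h.opn A e hA
  obtain ⟨b, hb, h2⟩ := h.opn A (-e) hA
  refine ⟨min a b, lt_min ha hb, fun t ht => ?_⟩
  have ta : |t| < a := ht.trans_le (min_le_left _ _)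
  have tb : |t| < b := ht.trans_le (min_le_right _ _)
  rcases le_total 0 t with h0 | h0
  · exact h1 t h0 ((le_abs_self t).trans ta.le)
  · have := h2 (-t) (by linarith) ((neg_le_abs t).trans tb.le)
    rwa [smul_neg, neg_smul, neg_neg] at this

theorem opn_fin {M : Mod N} (h : Aq M) (s : Finset M.J) :
    ∀ A : M.J → ℚ, M.AmpQ A → ∃ γ : ℚ, 0 < γ ∧ ∀ u : M.J → ℚ, (∀ j, |u j| < γ) →
      (∀ j, j ∉ s → u j = 0) → M.AmpQ (A + u) := by
  induction s using Finset.induction_on with
  | empty =>
    intro A hA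
    refine ⟨1, one_pos, fun u _ hu => ?_⟩
    have : u = 0 := funext fun j => hu j (notMem_empty j)
    rwa [this, add_zero]
  | insert i s hi ih =>
    intro A hA
    have hA' : M.AmpQ ((1 / 2 : ℚ) • A) := h.smul A _ (by norm_num) hA
    obtain ⟨a, ha, h1⟩ := ih _ hA'
    obtain ⟨b, hb, h2⟩ := opn_line h _ hA' (Pi.single i 1)
    refine ⟨min a b, lt_min ha hb, fun u hu hs => ?_⟩
    have k1 := h1 (Function.update u i 0) (fun j => by
      by_cases hj : j = i
      · subst hj; simpa using ha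
      · rw [Function.update_of_ne hj]; exact (hu j).trans_le (min_le_left _ _)) (fun j hj => by
      by_cases hji : j = i
      · subst hji; simp
      · rw [Function.update_of_ne hji]; exact hs j (by simp [hji, hj]))
    have k2 := h2 (u i) ((hu i).trans_le (min_le_right _ _))
    have k3 := h.add _ _ k1 (h.semi _ k2)
    have e : (1 / 2 : ℚ) • A + Function.update u i 0 + ((1 / 2 : ℚ) • A + u i • Pi.single i 1)
        = A + u := by
      funext j
      by_cases hj : j = i
      · subst hj; simp; ring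
      · simp [Function.update_of_ne hj, Pi.single_eq_of_ne hj]; ring
    rwa [e] at k3

theorem rowOPN : OfOPN := by
  intro hq n f M hf A hA
  obtain ⟨γ, hγ, h⟩ := opn_fin (hq n f M hf) univ A hA
  refine ⟨γ, hγ, fun B hB => ?_⟩
  have := h (B - A) hB (fun j hj => absurd (mem_univ j) hj)
  rwa [add_sub_cancel] at this

end Pool.Agent.MP_ee8c61_ag.M3CH
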