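import Pool.Agent.MP_ee8c61_ag.M3CH.Spec

/-!
Row REG: one family of sections serves all cells along the segments.
-/

namespace Pool.Agent.MP_ee8c61_ag.M3CH

open M3 M3E M3FG Finset

namespace RREG

variable {J : Type} [Fintype J] [DecidableEq J]

/-- The vertices of a box. -/
def vx (B : J → ℚ) : Option J → J → ℚ
  | none => B + 1
  | some j => B + 1 - (1 / 2 : ℚ) • Pi.single j 1

theorem sum_vx (B : J → ℚ) (α : Option J → ℚ) (j : J) :
    (∑ i, α i • vx B i) j = (∑ i, α i) * (B j + 1) - α (some j) / 2 := by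
  have h : ∀ i : J, (α (some i) • vx B (some i)) j =
      α (some i) * (B j + 1) - if i = j then α (some i) / 2 else 0 := fun i => by
    by_cases h : i = j
    · subst h; simp [vx]; ring
    · simp [vx, h, Ne.symm h]
  rw [Finset.sum_apply, Fintype.sum_option, Fintype.sum_option, Finset.sum_congr rfl fun i _ => h i,
    Finset.sum_sub_distrib, ← Finset.sum_mul, Finset.sum_ite_eq' univ j, if_pos (mem_univ j)]
  simp only [vx, Pi.smul_apply, Pi.add_apply, Pi.one_apply, smul_eq_mul]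
  ring

/-- The family of nonzero sections in a finite set. -/
noncomputable def gn {N : ℕ} {M : Mod N} (G : Finset ((M.J → ℤ) × KK N))
    (hG : ∀ p ∈ G, p.2 ∈ M.H p.1) : Gn M where
  ι := {p // p ∈ G ∧ p.2 ≠ 0}
  fι := by
    classical
    exact Fintype.subtype (G.filter fun p => p.2 ≠ 0) fun p => mem_filter
  c := fun p => p.1.1
  g := fun p => p.1.2
  ne := fun p => p.2.2
  mem := fun p => hG _ p.2.1

theorem reg {N : ℕ} {M : Mod N} (G : Finset ((M.J → ℤ) × KK N))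
    (hG : ∀ p ∈ G, p.2 ∈ M.H p.1) (c : M.J → ℤ)
    (h : ∀ g ∈ M.H c, ∃ n : ℕ, 0 < n ∧ Sp (G : Set ((M.J → ℤ) × KK N)) (n • c) (g ^ n)) :
    (gn G hG).Reg c := by
  intro s hs h0 v hv
  obtain ⟨n, hn, h1⟩ := h s hs
  have ht : Triv v := fun z => by
    have h2 := hv (algebraMap ℂ (Po N) z)
    rw [AlgHom.commutes] at h2
    exact h2
  have h2 : Sp (Set.range fun i => ((gn G hG).c i, (gn G hG).g i)) (n • c) (s ^ n) := by
    refine h1.bind fun p hp => ?_
    by_cases h3 : p.2 = 0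
    · rw [h3]; exact Sp.zero _
    · exact Sp.gen ⟨⟨p, hp, h3⟩, rfl⟩
  obtain ⟨α, h3, _, h4⟩ := h2.lp _ _ (pow_ne_zero n h0) v ht
  exact ⟨n, α, hn, h3, by rwa [v.pow] at h4⟩

end RREG

theorem rowREG : OfREG := by
  classical
  intro hARR hCOV hBOX _ hA hO f M hM
  have aM := hA 3 f M hM
  obtain ⟨w, hw⟩ := hM.amp
  have hH := aM.of_amp w hw
  obtain ⟨ε0, h0, h1⟩ := aM.opn (M.q w) (nu M) hH
  obtain ⟨γ1, g1, k1⟩ := hO 3 f M hM _ hH
  obtain ⟨γ2, g2, k2⟩ := hO 3 f M hM _ (h1 ε0 h0.le le_rfl)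
  obtain ⟨ε, γ3, σ, n, hε, g3, hσ, k3⟩ := hCOV M.J (M.q M.aa) (M.q w) ε0⁻¹ fun j => by
    have := hM.pos j
    simpa [Mod.aa] using this
  let A : Fin n → M.J → ℚ := fun s => ((((s : ℕ) : ℚ) + 1) * σ) • M.q w
  have hAs : ∀ s, M.AmpQ (A s) := fun s => aM.smul _ _ (by positivity) hH
  choose G hG1 hG2 using fun s => hBOX f M hM (A s) (hAs s)
  choose Wl hW1 hW2 using fun s =>
    hARR M.J (Option M.J) (RREG.vx (M.q M.kk + A s)) (M.q M.aa)
  have hG : ∀ p ∈ univ.biUnion G, p.2 ∈ M.H p.1 := fun p hp => by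
    obtain ⟨s, _, hs⟩ := mem_biUnion.1 hp
    exact hG1 s p hs
  refine ⟨RREG.gn _ hG, M.q w, ε0⁻¹, ε, min γ1 (min γ2 γ3), univ.biUnion Wl, inv_pos.2 h0, hε,
    lt_min g1 (lt_min g2 g3), fun y hy => ?_, fun h hh => ⟨k1 h fun j => ?_, ?_, ?_⟩⟩
  · obtain ⟨s, _, hs⟩ := mem_biUnion.1 hy
    exact hW1 s y hs
  · exact (hh j).trans_le (min_le_left _ _)
  · have h2 := aM.smul _ _ (inv_pos.2 h0) (k2 (h + ε0 • nu M) fun j => by
      rw [Pi.add_apply, Pi.add_apply, add_sub_add_right_eq_sub]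
      exact (hh j).trans_le ((min_le_right _ _).trans (min_le_left _ _)))
    rwa [smul_add, smul_smul, inv_mul_cancel₀ h0.ne', one_smul, add_comm] at h2
  · intro t t1 t2 ho c hc
    obtain ⟨s, r, u, u0, u1, e⟩ := k3 h
      (fun j => (hh j).trans_le ((min_le_right _ _).trans (min_le_right _ _))) t t1 t2
    have hsub : Wl s ⊆ univ.biUnion Wl := subset_biUnion_of_mem Wl (mem_univ s)
    obtain ⟨_, _, _, _, _, h2⟩ := hW2 s 0 0 (fun _ _ _ _ => by simp) _ (ho.mono hsub) (by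
      refine ⟨fun i => i.elim (1 - 2 * ∑ j, u j) fun j => 2 * u j, r, fun i => ?_, ?_⟩
      · rcases i with _ | j
        · change 0 ≤ 1 - 2 * ∑ j, u j
          linarith
        · exact mul_nonneg zero_le_two (u0 j)
      · funext j
        rw [e, Pi.add_apply _ (r • M.q M.aa), RREG.sum_vx, Fintype.sum_option]
        simp only [Option.elim, ← Finset.mul_sum, Pi.add_apply, Pi.sub_apply, nu, A, Mod.q_apply,
          Mod.kk, Int.cast_natCast]
        ring)
    obtain ⟨α, τ, a0, _, h3⟩ := h2 _ (Cell.mono hsub _ hc)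
    refine RREG.reg _ hG c fun g hg => ?_
    obtain ⟨m, hm, h4⟩ := hG2 s c (∑ i, α i) τ (fun j => ∑ i, α i - α (some j) / 2)
      (sum_nonneg fun i _ => a0 i) (fun j => by
        have h5 : α (some j) ≤ ∑ i, α i := single_le_sum (fun i _ => a0 i) (mem_univ _)
        have h6 : 0 ≤ α (some j) := a0 _
        constructor <;> linarith) (by
        funext j
        rw [h3, Pi.add_apply _ (τ • M.q M.aa), RREG.sum_vx]
        simp only [Pi.add_apply, Pi.smul_apply, smul_eq_mul]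
        ring) g hg
    exact ⟨m, hm, h4.mono (coe_subset.2 (subset_biUnion_of_mem G (mem_univ s)))⟩

end Pool.Agent.MP_ee8c61_ag.M3CH
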