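import Pool.Agent.MP_ee8c61_ag.M3.Defs
import Pool.Agent.MP_ee8c61_ag.M3CH.RAl
import Pool.Agent.MP_ee8c61_ag.M3CH.RGEN
import Pool.Agent.MP_ee8c61_ag.M3CH.RCOV
import Pool.Agent.MP_ee8c61_ag.M3CH.RCELL
import Pool.Agent.MP_ee8c61_ag.M3CH.ROPN
import Pool.Agent.MP_ee8c61_ag.M3CH.RREG
import Pool.Agent.MP_ee8c61_ag.M3CH.RVLP
import Pool.Agent.MP_ee8c61_ag.M3CH.RMOD

/-!
The last chamber in which a divisor is alive.
-/

namespace Pool.Agent.MP_ee8c61_ag.M3CH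

open M3 M3E Finset

theorem ch0_of (hX : SBOX) (hB : SBas) (hH : SH) (hA : SAq) (hD : SDc) (h1 : SB1) : SCH0 :=
  ch0 rowGEN (rowREG rowARR rowCOV hX hB hA (rowOPN hA))
    (rowMOD rowCELL hB hH hD h1 (rowVLP rowARR hB))

theorem ch1 (hB : SBas) (hA : SAq) (h0 : SCH0) : SCH := by
  intro f M _ hM o
  obtain ⟨W, D, h, ε, T, r, Wl, P, hW, a1, hε, hT, hr, a2, a3, a4, a5, a6⟩ := h0 f M hM
  have BM := hB 3 f M hM
  have AM := hA 3 f M hM
  obtain ⟨δ, hδ, a7⟩ := AM.opn _ (-h) a2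
  obtain ⟨t, s, b1, b2, b3, b4, b5, b6, b7⟩ := seg (nu M) h a4 hT hδ
    (fun s => Live M o (nu M + s • h)) fun s k1 k2 => by
      have := a7 (T - s) (by linarith) (by linarith)
      rw [show nu M + T • h + (T - s) • -h = nu M + s • h by module] at this
      exact live_of_semi BM o (AM.semi _ this)
  have hm := a6 s (by linarith) b3 b5
  refine ⟨⟨W, D, Cell Wl (nu M + s • h), P (Cell Wl (nu M + s • h)), h, t, hW,
    fun _ k _ k' => Cell.add k k', fun _ k _ k' => Cell.smul k k'.le, fun _ k => hm.mult hr k, a1,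
    b1, b6, s, b2, fun u => Cell.near b5 (Cell.self _ _) u fun w hw e => absurd e (b5 w hw)⟩,
    hm.alive BM (hB 3 f W hW) D hr b5 b4, ?_⟩
  rcases b7 with e | ⟨c1, ⟨w, c2, c3⟩, s0, c4, c5⟩
  · exact Or.inr e
  refine Or.inl ⟨c1, ?_, s0, c4, fun s' k1 k2 m c k3 k4 g k5 => ?_⟩
  · have near : ∀ u, w u = 0 → ∃ δ : ℚ, 0 < δ ∧ nu M + t • h + δ • u ∈ Cell Wl (nu M + s • h) :=
      fun u hu => Cell.near b5 b6 u fun w' k1 k2 => by
        obtain ⟨z, rfl⟩ := a5 w c2 w' k1 t c1.ne' c3 k2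
        simp [hu]
    rcases lt_or_gt_of_ne (a4 w c2) with e | e
    · exact ⟨-w, neg_pos.2 e, neg_eq_zero.2 c3, neg_eq_zero.2 (a3 w c2).2,
        fun u hu => near u (neg_eq_zero.1 hu)⟩
    · exact ⟨w, e, c3, (a3 w c2).2, near⟩
  · by_contra k6
    exact c5 s' k1 k2 ⟨m, c, k3, k4, g, k5, k6⟩

theorem ch_of (hX : SBOX) (hB : SBas) (hH : SH) (hA : SAq) (hD : SDc) (h1 : SB1) : SCH :=
  ch1 hB hA (ch0_of hX hB hH hA hD h1)

end Pool.Agent.MP_ee8c61_ag.M3CH
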