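import Pool.Agent.MP_ee8c61_ag.M3.Frame
import Pool.Agent.MP_ee8c61_ag.M3K.RKa
import Pool.Agent.MP_ee8c61_ag.M3K.RNg0

/-!
The traces of the semiample divisors on the surface.
-/

namespace Pool.Agent.MP_ee8c61_ag.M3CH

open M3 M3E M3RESID Finset

namespace RISem

section Place

variable {K k : Type} [Field K] [Algebra ℂ K] [Field k] [Algebra ℂ k] (P : Pl K k) (Γ : DV k)

theorem pi_inv {g : K} (h : Un P.o.O g) : P.π g * P.π g⁻¹ = 1 := by
  rw [← P.mul g h.2.1 g⁻¹ h.2.2, mul_inv_cancel₀ h.1, pl_one]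

theorem pi_ne {g : K} (h : Un P.o.O g) : P.π g ≠ 0 := left_ne_zero_of_mul_eq_one (pi_inv P h)

theorem v_mul {g h : K} (hg : Un P.o.O g) (hh : Un P.o.O h) :
    Γ.v (P.π (g * h)) = Γ.v (P.π g) + Γ.v (P.π h) := by
  rw [P.mul g hg.2.1 h hh.2.1, Γ.mul _ _ (pi_ne P hg) (pi_ne P hh)]

theorem v_one : Γ.v (P.π 1) = 0 := by rw [pl_one, Γ.one]

theorem v_inv {g : K} (hg : Un P.o.O g) : Γ.v (P.π g⁻¹) = -Γ.v (P.π g) := by
  have h := v_mul P Γ hg hg.inv
  rw [mul_inv_cancel₀ hg.1, v_one] at h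
  omega

theorem v_pow {g : K} (hg : Un P.o.O g) (r : ℕ) : Γ.v (P.π (g ^ r)) = r * Γ.v (P.π g) := by
  induction r with
  | zero => rw [pow_zero, v_one, Nat.cast_zero, zero_mul]
  | succ r ih =>
    rw [pow_succ, v_mul P Γ (hg.pow r) hg, ih]
    push_cast
    ring

theorem v_zpow {g : K} (hg : Un P.o.O g) (r : ℤ) : Γ.v (P.π (g ^ r)) = r * Γ.v (P.π g) := by
  rcases r with r | r
  · simpa using v_pow P Γ hg r
  · rw [zpow_negSucc, v_inv P Γ (hg.pow _), v_pow P Γ hg, Int.negSucc_eq]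
    push_cast
    ring

theorem v_prod {ι : Type} (s : Finset ι) {g : ι → K} (hg : ∀ i, Un P.o.O (g i)) :
    Γ.v (P.π (∏ i ∈ s, g i)) = ∑ i ∈ s, Γ.v (P.π (g i)) := by
  classical
  induction s using Finset.induction_on with
  | empty => rw [prod_empty, sum_empty, v_one]
  | insert a s ha ih =>
    rw [prod_insert ha, sum_insert ha, v_mul P Γ (hg a) (Un.prod s fun i _ => hg i), ih]

theorem lift_le : lift P Γ ≤ P.o.O := fun _ h => h.1

theorem v_unit {g : K} (hg : Un (lift P Γ) g) : Γ.v (P.π g) = 0 := by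
  have u := hg.mono (lift_le P Γ)
  have a := hg.2.1.2.resolve_left (pi_ne P u)
  have b := hg.2.2.2.resolve_left (pi_ne P u.inv)
  rw [v_inv P Γ u] at b
  omega

end Place

variable {N : ℕ} {k : Type} [Field k] [Algebra ℂ k]

theorem ov_lift (P : Pl (KK N) k) (Γ : DV k) (h : Ov P.o.O) (hx : ∀ l, P.π (xx N l) ∈ Γ.F 0) :
    Ov (lift P Γ) := by
  intro p
  induction p using MvPolynomial.induction_on with
  | C c =>
    have e : ip N (MvPolynomial.C c) = algebraMap ℂ (KK N) c := (ip N).commutes c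
    rw [e]
    exact ⟨(P.cst c).1, by rw [(P.cst c).2]; exact Γ.cst_mem c⟩
  | add p q hp hq =>
    rw [map_add]
    exact add_mem hp hq
  | mul_X p l hp =>
    rw [map_mul]
    exact mul_mem hp ⟨h _, hx l⟩

open Classical in
theorem dg (E : EOut) {f : Po N} {W : M3.Mod N} (hW : W.OK f) (o : W.J) (P : Pl (KK N) k)
    (hP : P.o = W.v o) (Γ : DV k) (hx : ∀ l, P.π (xx N l) ∈ Γ.F 0) {c : W.J → ℤ} (hc : c o = 0)
    {T : Finset (KK N)} (hT : W.Gens c T) :
    Dg (T.image P.π) Γ (∑ i, (c i : ℚ) * W.tr P Γ i) := by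
  have B := E.bas N f W hW
  have ov := ov_lift P Γ (hP ▸ B.ov_v o) hx
  have ex := hW.cov _ ov
  have hb := ex.choose_spec
  have hO : W.In ex.choose (W.v o).O := fun g hg => hP ▸ lift_le P Γ (hb g hg)
  obtain ⟨s, hs, gs⟩ := hT.2 _ ov
  have u1 := gs _ hb
  have uη : ∀ i, i ≠ o → Un P.o.O (W.η ex.choose i) := fun i hi => by
    rw [hP]
    by_contra q
    exact hi ((B.thru_v o i).1 ((B.thru_iff _ _ i hO).2 q))
  have uz : ∀ i, Un P.o.O (W.η ex.choose i ^ c i) := fun i => by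
    by_cases hi : i = o
    · rw [hi, hc, zpow_zero]
      exact un_one
    · exact (uη i hi).zpow _
  have um : Un P.o.O (W.mon ex.choose c) := by
    rw [W.mon_eq]
    exact Un.prod _ fun i _ => uz i
  have us : Un P.o.O s := (u1.mono (lift_le P Γ)).cancel um
  refine ⟨P.π s, ⟨mem_image_of_mem _ hs, pi_ne P us, fun y hy => ?_⟩, ?_⟩
  · obtain ⟨s', hs', rfl⟩ := mem_image.1 hy
    have q := (B.oc_div _ c s' s ov gs).1 (hT.1 s' hs' _ ov)
    have e := P.mul _ q.1 s us.2.1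
    rw [div_mul_cancel₀ _ us.1] at e
    rw [e, mul_div_cancel_right₀ _ (pi_ne P us)]
    exact q.2
  · have q := v_unit P Γ u1
    rw [v_mul P Γ us um, W.mon_eq, v_prod P Γ _ uz] at q
    have e : ∀ i, Γ.v (P.π (W.η ex.choose i ^ c i)) = c i * W.tr P Γ i := fun i => by
      by_cases hi : i = o
      · rw [hi, hc, zpow_zero, v_one, zero_mul]
      · rw [v_zpow P Γ (uη i hi), Mod.tr, dif_pos ex]
    rw [sum_congr rfl fun i _ => e i] at q
    have q2 := congrArg (Int.cast : ℤ → ℚ) (eq_neg_of_add_eq_zero_left q)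
    push_cast at q2
    exact q2

variable {f : Po 3} {M : M3.Mod 3} (C : Ch f M) (o : M.J)

theorem P_sum (hd : ∀ j, ¬C.Alive j → C.P (M.q (M.e j)) = 0) (d : M.J → ℚ) (h0 : d o = 0) :
    C.P d = ∑ j : C.Nb o, d j.1 • C.P (M.q (M.e j.1)) := by
  classical
  have e : d = ∑ j, d j • M.q (M.e j) := funext fun l => by
    simp [Finset.sum_apply, Mod.e_apply]
  have e2 : C.P d = ∑ j, d j • C.P (M.q (M.e j)) := by
    conv_lhs => rw [e]
    rw [map_sum]
    exact sum_congr rfl fun j _ => map_smul _ _ _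
  have e3 : ∑ j ∈ univ.filter fun j => j ≠ o ∧ C.Alive j, d j • C.P (M.q (M.e j)) =
      ∑ j, d j • C.P (M.q (M.e j)) := by
    refine sum_filter_of_ne fun j _ hj => ⟨fun q => hj ?_, ?_⟩
    · rw [q, h0, zero_smul]
    · by_contra q
      exact hj (by rw [hd j q, smul_zero])
  rw [e2, ← e3]
  exact sum_subtype (p := fun j => j ≠ o ∧ C.Alive j) _ (fun j => by simp) _

theorem pt_zero (hM : M.OK f) {la : ℚ} (h : M.ex la o = 0) (t : ℚ) : C.pt la o t o = 0 := by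
  have a : (M.a o : ℚ) ≠ 0 := Nat.cast_ne_zero.2 (hM.pos o).ne'
  have e : C.hp o o = 0 := by
    simp only [Ch.hp, Pi.sub_apply, Pi.smul_apply, Mod.q_apply, Mod.aa, smul_eq_mul, Int.cast_natCast]
    rw [div_mul_cancel₀ _ a, sub_self]
  simp only [Ch.pt, Pi.add_apply, Pi.smul_apply, h, e, smul_zero, add_zero]

theorem th_eq (hd : ∀ j, ¬C.Alive j → C.P (M.q (M.e j)) = 0) (hM : M.OK f) {la : ℚ}
    (h : M.ex la o = 0) (b : Polynomial ℂ) (X : Ch.AV (M := M) o) (Y : C.AS o) (t : ℚ)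
    (Γ : DV (M.v o).kf) :
    (C.sd la b o X Y).th t Γ = ∑ i, C.P (C.pt la o t) i * C.W.tr (M.v o).pl Γ i := by
  rw [P_sum C o hd _ (pt_zero C o hM h t)]
  show ∑ j : C.Nb o, (M.ex la j.1 + t * C.hp o j.1) *
    ∑ i, C.P (M.q (M.e j.1)) i * (C.W.tr (M.v o).pl Γ i : ℚ) = _
  simp only [Finset.sum_apply, Pi.smul_apply, smul_eq_mul, sum_mul, mul_sum, Ch.pt, Pi.add_apply,
    mul_assoc]
  exact sum_comm

open Classical in
theorem dg' (E : EOut) (ha : C.Alive o) (Γ : DV (M.v o).kf)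
    (hx : ∀ l, (M.v o).pl.π (xx 3 l) ∈ Γ.F 0) {m : ℕ} {d : M.J → ℚ} (h0 : d o = 0)
    {c : C.W.J → ℤ} (hc : C.W.q c = m • C.P d) {T : Finset (KK 3)} (hT : C.W.Gens c T) :
    Dg (T.image (M.v o).pl.π) Γ (m * ∑ i, C.P d i * C.W.tr (M.v o).pl Γ i) := by
  have e : ∀ i, (c i : ℚ) = m * C.P d i := fun i => by
    have q := congrFun hc i
    rwa [Mod.q_apply, Pi.smul_apply, nsmul_eq_mul] at q
  have c0 : c (C.D.e o) = 0 := by
    have q := e (C.D.e o)
    rw [ha d, h0, mul_zero] at q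
    exact_mod_cast q
  have q := dg E C.ok (C.D.e o) (M.v o).pl (C.D.v o).symm Γ hx c0 hT
  rw [mul_sum]
  simpa only [e, mul_assoc] using q

end RISem

open RISem in
theorem rISem (E : EOut) : ISem := by
  intro f la b β Q M C o X Y hS _ hY
  have hd := (M3K.rowKa E (M3K.rowNg0 E) 3 f M C hS.ok).dead
  have th := th_eq C o hd hS.ok hS.zero b X Y
  have z := pt_zero C o hS.ok hS.zero
  refine ⟨C.t0, hY.t1, hY.ε, hY.m, fun Γ hΓ => ?_, fun Γ hΓ => ?_, fun j Γ hΓ => ?_⟩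
  · rw [th]
    exact dg' C o E hS.alive Γ hΓ.bas (z _) hY.c0 hY.T0
  · rw [th]
    exact dg' C o E hS.alive Γ hΓ.bas (z _) hY.c1 hY.T1
  · have h0 : (C.pt la o Y.t1 + Y.ε • M.q (M.e j.1)) o = 0 := by
      rw [Pi.add_apply, z, Pi.smul_apply, Mod.q_apply, Mod.e_apply, if_neg (Ne.symm j.2.1),
        Int.cast_zero, smul_zero, add_zero]
    have q := dg' C o E hS.alive Γ hΓ.bas h0 (hY.cj j.1) (hY.Tj j.1)
    have e : ∑ i, C.P (C.pt la o Y.t1 + Y.ε • M.q (M.e j.1)) i * (C.W.tr (M.v o).pl Γ i : ℚ) =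
        ∑ i, C.P (C.pt la o Y.t1) i * (C.W.tr (M.v o).pl Γ i : ℚ) +
          Y.ε * ∑ i, C.P (M.q (M.e j.1)) i * (C.W.tr (M.v o).pl Γ i : ℚ) := by
      rw [map_add, map_smul, mul_sum, ← sum_add_distrib]
      refine sum_congr rfl fun i _ => ?_
      rw [Pi.add_apply, Pi.smul_apply, smul_eq_mul]
      ring
    rw [e] at q
    rw [th]
    exact q

end Pool.Agent.MP_ee8c61_ag.M3CH
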