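import Pool.Agent.MP_ee8c61_ag.M3CH.SpecP

/-!
Optimal basic solutions of a linear program.
-/

namespace Pool.Agent.MP_ee8c61_ag.M3CH

open Finset

namespace ARR

variable {J ι : Type} [Fintype ι] (c : ι → J → ℚ) (a : J → ℚ) (ω : ι → ℚ) (ωa : ℚ)

/-- The combination of the columns. -/
def ph : ((ι → ℚ) × ℚ) →ₗ[ℚ] (J → ℚ) where
  toFun p := ∑ i, p.1 i • c i + p.2 • a
  map_add' p q := by
    simp only [Prod.fst_add, Prod.snd_add, Pi.add_apply, add_smul, sum_add_distrib]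
    abel
  map_smul' t p := by
    simp only [Prod.smul_fst, Prod.smul_snd, Pi.smul_apply, smul_eq_mul, mul_smul, smul_add,
      smul_sum, RingHom.id_apply]

/-- The cost. -/
def co : ((ι → ℚ) × ℚ) →ₗ[ℚ] ℚ where
  toFun p := ∑ i, p.1 i * ω i + p.2 * ωa
  map_add' p q := by
    simp only [Prod.fst_add, Prod.snd_add, Pi.add_apply, add_mul, sum_add_distrib]
    abel
  map_smul' t p := by
    simp only [Prod.smul_fst, Prod.smul_snd, Pi.smul_apply, smul_eq_mul, mul_add, mul_sum,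
      mul_assoc, RingHom.id_apply]

/-- Coefficients supported in `S`. -/
def sp (S : Finset ι) : Submodule ℚ ((ι → ℚ) × ℚ) where
  carrier := {p | ∀ i ∉ S, p.1 i = 0}
  zero_mem' := fun _ _ => rfl
  add_mem' := fun {p q} hp hq i hi => by simp [hp i hi, hq i hi]
  smul_mem' := fun t p hp i hi => by simp [hp i hi]

/-- The columns in `S` are independent modulo `a`. -/
def Ind (S : Finset ι) : Prop := ∀ p ∈ sp S, ph c a p = 0 → p.1 = 0

variable {c a ω ωa}

theorem reduce (hb : ∀ p : (ι → ℚ) × ℚ, 0 ≤ p.1 → ph c a p = 0 → 0 ≤ co ω ωa p) (S : Finset ι) :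
    ∀ p ∈ sp S, 0 ≤ p.1 → ∃ (S' : Finset ι) (p' : (ι → ℚ) × ℚ), Ind c a S' ∧ p' ∈ sp S' ∧
      0 ≤ p'.1 ∧ ph c a p' = ph c a p ∧ co ω ωa p' ≤ co ω ωa p := by
  classical
  induction S using Finset.strongInduction with
  | H S ih =>
  intro p hp h0
  by_cases hI : Ind c a S
  · exact ⟨S, p, hI, hp, h0, rfl, le_rfl⟩
  obtain ⟨δ, h1, h2, h3, i1, h4⟩ :
      ∃ δ ∈ sp S, ph c a δ = 0 ∧ co ω ωa δ ≤ 0 ∧ ∃ i, δ.1 i < 0 := by
    have key : ∀ δ ∈ sp S, ph c a δ = 0 → δ.1 ≠ 0 → co ω ωa δ ≤ 0 →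
        ∃ δ ∈ sp S, ph c a δ = 0 ∧ co ω ωa δ ≤ 0 ∧ ∃ i, δ.1 i < 0 := fun δ h1 h2 h3 h4 => by
      by_cases h5 : ∃ i, δ.1 i < 0
      · exact ⟨δ, h1, h2, h4, h5⟩
      · push Not at h5
        obtain ⟨i, hi⟩ := Function.ne_iff.1 h3
        refine ⟨-δ, neg_mem h1, by rw [map_neg, h2, neg_zero], ?_, i, ?_⟩
        · rw [map_neg]; linarith [hb δ h5 h2]
        · exact neg_neg_of_pos (lt_of_le_of_ne (h5 i) (Ne.symm hi))
    unfold Ind at hI
    push Not at hI
    obtain ⟨δ, h1, h2, h3⟩ := hI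
    rcases le_total (co ω ωa δ) 0 with h | h
    · exact key δ h1 h2 h3 h
    · exact key (-δ) (neg_mem h1) (by rw [map_neg, h2, neg_zero]) (neg_ne_zero.2 h3)
        (by rw [map_neg]; linarith)
  obtain ⟨i0, hi0, hm⟩ := exists_min_image (univ.filter fun i => δ.1 i < 0)
    (fun i => p.1 i / -δ.1 i) ⟨i1, by simpa using h4⟩
  have h5 : δ.1 i0 < 0 := by simpa using hi0
  have hs : 0 ≤ p.1 i0 / -δ.1 i0 := div_nonneg (h0 i0) (by linarith)
  have hS : i0 ∈ S := by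
    by_contra h
    exact h5.ne (h1 i0 h)
  obtain ⟨S', p', k1, k2, k3, k4, k5⟩ := ih (S.erase i0) (erase_ssubset hS)
    (p + (p.1 i0 / -δ.1 i0) • δ) (fun i hi => by
      by_cases e : i = i0
      · subst e
        have := h5.ne
        simp only [Prod.fst_add, Prod.smul_fst, Pi.add_apply, Pi.smul_apply, smul_eq_mul]
        field_simp
        ring
      · have : i ∉ S := fun h => hi (mem_erase.2 ⟨e, h⟩)
        simp [hp i this, h1 i this]) (fun i => by
      simp only [Prod.fst_add, Prod.smul_fst, Pi.add_apply, Pi.smul_apply, smul_eq_mul,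
        Pi.zero_apply]
      by_cases e : δ.1 i < 0
      · have := (le_div_iff₀ (neg_pos.2 e)).1 (hm i (by simpa using e))
        linarith
      · exact add_nonneg (h0 i) (mul_nonneg hs (not_lt.1 e)))
  refine ⟨S', p', k1, k2, k3, by rw [k4, map_add, map_smul, h2, smul_zero, add_zero], ?_⟩
  rw [map_add, map_smul, smul_eq_mul] at k5
  nlinarith

theorem ker (hb : ∀ p : (ι → ℚ) × ℚ, 0 ≤ p.1 → ph c a p = 0 → 0 ≤ co ω ωa p) {S : Finset ι}
    (hI : Ind c a S) {p : (ι → ℚ) × ℚ} (hp : p ∈ sp S) (h : ph c a p = 0) : co ω ωa p = 0 := by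
  have h1 := hI p hp h
  have h2 := hb (-p) (by rw [Prod.fst_neg, h1, neg_zero]) (by rw [map_neg, h, neg_zero])
  rw [map_neg] at h2
  linarith [hb p h1.ge h]

theorem opt (hb : ∀ p : (ι → ℚ) × ℚ, 0 ≤ p.1 → ph c a p = 0 → 0 ≤ co ω ωa p) {x : J → ℚ}
    (hx : ∃ p : (ι → ℚ) × ℚ, 0 ≤ p.1 ∧ ph c a p = x) :
    ∃ (S : Finset ι) (p : (ι → ℚ) × ℚ), Ind c a S ∧ p ∈ sp S ∧ 0 ≤ p.1 ∧ ph c a p = x ∧
      ∀ q : (ι → ℚ) × ℚ, 0 ≤ q.1 → ph c a q = x → co ω ωa p ≤ co ω ωa q := by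
  classical
  let B : Finset ι → Prop := fun S => Ind c a S ∧ ∃ p ∈ sp S, 0 ≤ p.1 ∧ ph c a p = x
  have red : ∀ q : (ι → ℚ) × ℚ, 0 ≤ q.1 → ph c a q = x → ∃ S, B S ∧ ∃ p ∈ sp S, ph c a p = x ∧
      co ω ωa p ≤ co ω ωa q := fun q h1 h2 => by
    obtain ⟨S, p, k1, k2, k3, k4, k5⟩ := reduce hb univ q (fun i hi => absurd (mem_univ i) hi) h1
    exact ⟨S, ⟨k1, p, k2, k3, k4.trans h2⟩, p, k2, k4.trans h2, k5⟩
  choose! g g1 g2 g3 using fun S (h : B S) => h.2
  obtain ⟨q0, h1, h2⟩ := hx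
  obtain ⟨S0, h3, -⟩ := red q0 h1 h2
  obtain ⟨S, hS, hm⟩ := exists_min_image (univ.filter B) (fun S => co ω ωa (g S))
    ⟨S0, by simpa using h3⟩
  have hS' : B S := by simpa using hS
  refine ⟨S, g S, hS'.1, g1 S hS', g2 S hS', g3 S hS', fun q k1 k2 => ?_⟩
  obtain ⟨S', k3, p, k4, k5, k6⟩ := red q k1 k2
  have k7 := ker hb k3.1 (sub_mem k4 (g1 S' k3)) (by rw [map_sub, k5, g3 S' k3, sub_self])
  rw [map_sub] at k7
  linarith [hm S' (by simpa using k3)]

omit [Fintype ι] in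
theorem small (S : Finset ι) {α : ι → ℚ} (δ : ι → ℚ) (h : ∀ i ∈ S, 0 < α i) :
    ∃ s : ℚ, 0 < s ∧ ∀ i ∈ S, s * δ i ≤ α i := by
  classical
  induction S using Finset.induction_on with
  | empty => exact ⟨1, one_pos, by simp⟩
  | insert j S _ ih =>
    obtain ⟨s, h1, h2⟩ := ih fun i hi => h i (mem_insert_of_mem hi)
    have hj := h j (mem_insert_self _ _)
    have hd : 0 < |δ j| + 1 := by positivity
    refine ⟨min s (α j / (|δ j| + 1)), lt_min h1 (div_pos hj hd), fun i hi => ?_⟩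
    have h3 : 0 < min s (α j / (|δ j| + 1)) := lt_min h1 (div_pos hj hd)
    rcases mem_insert.1 hi with rfl | hi
    · have := (le_div_iff₀ hd).1 (min_le_right s (α i / (|δ i| + 1)))
      nlinarith [le_abs_self (δ i)]
    · rcases le_total (δ i) 0 with e | e
      · nlinarith [h i (mem_insert_of_mem hi)]
      · nlinarith [h2 i hi, min_le_left s (α j / (|δ j| + 1))]

theorem ph_single [DecidableEq ι] (i : ι) : ph c a (Pi.single i 1, 0) = c i := by
  simp [ph, Pi.single_apply, ite_smul]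

theorem co_single [DecidableEq ι] (i : ι) : co ω ωa (Pi.single i 1, 0) = ω i := by
  simp [co, Pi.single_apply]

omit [Fintype ι] in
theorem single_mem [DecidableEq ι] {S : Finset ι} {i : ι} (h : i ∈ S) :
    ((Pi.single i 1, 0) : (ι → ℚ) × ℚ) ∈ sp S := fun j hj =>
  Pi.single_eq_of_ne (fun e : j = i => hj (by rwa [e])) _

omit [Fintype ι] in
theorem erase_mem [DecidableEq ι] {S : Finset ι} {p : (ι → ℚ) × ℚ} (hp : p ∈ sp S) (i : ι) :
    p - p.1 i • ((Pi.single i 1, 0) : (ι → ℚ) × ℚ) ∈ sp (S.erase i) := fun j hj => by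
  by_cases e : j = i
  · simp [e]
  · simp [hp j fun h => hj (mem_erase.2 ⟨e, h⟩), e]

end ARR

open ARR in
theorem rowARR : StmtARR := by
  classical
  intro J ι _ _ c a
  have hw : ∀ S : Finset ι, (sp S).map (ph c a) ≠ ⊤ →
      ∃ w : Fm J, w ≠ 0 ∧ ∀ p ∈ sp S, w (ph c a p) = 0 := fun S h => by
    obtain ⟨w, h1, h2⟩ := Submodule.exists_le_ker_of_lt_top _ (lt_top_iff_ne_top.2 h)
    exact ⟨w, h1, fun p hp => h2 (Submodule.mem_map_of_mem hp)⟩
  choose! w w1 w2 using hw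
  have ha : ph c a (0, 1) = a := by simp [ph]
  have ha' : ∀ S : Finset ι, ((0, 1) : (ι → ℚ) × ℚ) ∈ sp S := fun _ _ _ => rfl
  refine ⟨(univ.filter fun S => (sp S).map (ph c a) ≠ ⊤).image w, fun u hu => ?_, ?_⟩
  · obtain ⟨S, hS, rfl⟩ := mem_image.1 hu
    have hS' := (mem_filter.1 hS).2
    exact ⟨w1 S hS', ha ▸ w2 S hS' _ (ha' S)⟩
  intro ω ωa hb0 x hx ⟨α0, τ0, h0, hx0⟩
  have hb : ∀ p : (ι → ℚ) × ℚ, 0 ≤ p.1 → ph c a p = 0 → 0 ≤ co ω ωa p := fun p => hb0 p.1 p.2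
  have hm : ∀ S, (sp S).map (ph c a) ≠ ⊤ →
      w S ∈ (univ.filter fun S => (sp S).map (ph c a) ≠ ⊤).image w := fun S h =>
    mem_image_of_mem _ (mem_filter.2 ⟨mem_univ _, h⟩)
  obtain ⟨S, p, hI, hp, hp0, hpx, hopt⟩ := opt hb ⟨(α0, τ0), h0, hx0.symm⟩
  have htop : (sp S).map (ph c a) = ⊤ := by
    by_contra h
    exact hx _ (hm S h) (hpx ▸ w2 S h p hp)
  have hsur : ∀ d, ∃ q ∈ sp S, ph c a q = d := fun d => by
    have : d ∈ (sp S).map (ph c a) := htop ▸ Submodule.mem_top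
    exact this
  have her : ∀ i ∈ S, (sp (S.erase i)).map (ph c a) ≠ ⊤ := fun i hi h => by
    obtain ⟨q, k1, k2⟩ : c i ∈ (sp (S.erase i)).map (ph c a) := h ▸ Submodule.mem_top
    have k3 := hI (q - (Pi.single i 1, 0))
      (sub_mem (fun j hj => k1 j fun h => hj (mem_of_mem_erase h)) (single_mem hi))
      (by rw [map_sub, k2, ph_single, sub_self])
    have k4 := congrFun k3 i
    simp [k1 i (notMem_erase i S)] at k4
  have hco : ∀ i ∈ S, ∀ q ∈ sp S, w (S.erase i) (ph c a q) = q.1 i * w (S.erase i) (c i) :=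
    fun i hi q hq => by
      have := w2 _ (her i hi) _ (erase_mem hq i)
      rwa [map_sub, map_smul, ph_single, map_sub, map_smul, smul_eq_mul, sub_eq_zero] at this
  have hpos : ∀ i ∈ S, 0 < p.1 i ∧ w (S.erase i) (c i) ≠ 0 := fun i hi => by
    have := hx _ (hm _ (her i hi))
    rw [← hpx, hco i hi p hp] at this
    exact ⟨lt_of_le_of_ne (hp0 i) (left_ne_zero_of_mul this).symm, right_ne_zero_of_mul this⟩
  obtain ⟨σ, hσ⟩ := ((ph c a).comp (sp S).subtype).exists_rightInverse_of_surjective (by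
    rw [LinearMap.range_comp, Submodule.range_subtype, htop])
  have hy : ∀ q ∈ sp S, co ω ωa (σ (ph c a q)) = co ω ωa q := fun q hq => by
    have k1 : ph c a (σ (ph c a q)) = ph c a q := LinearMap.congr_fun hσ (ph c a q)
    have := ker hb hI (sub_mem (σ (ph c a q)).2 hq) (by rw [map_sub, k1, sub_self])
    rwa [map_sub, sub_eq_zero] at this
  refine ⟨(co ω ωa).comp ((sp S).subtype.comp σ), S, ?_, fun i => ?_, fun i hi => ?_,
    fun d hd => ?_⟩
  · have := hy _ (ha' S)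
    rw [ha] at this
    exact this.trans (by simp [co])
  · obtain ⟨q, k1, k2⟩ := hsur (c i)
    obtain ⟨s, k3, k4⟩ := small S q.1 fun j hj => (hpos j hj).1
    have k5 := hopt (p - s • q + s • (Pi.single i 1, 0)) (fun j => ?_)
      (by rw [map_add, map_sub, map_smul, map_smul, ph_single, k2, hpx, sub_add_cancel])
    · rw [map_add, map_sub, map_smul, map_smul, co_single, smul_eq_mul, smul_eq_mul] at k5
      have k6 := hy q k1
      rw [k2] at k6
      refine le_of_eq_of_le k6 (le_of_mul_le_mul_left (by linarith) k3)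
    · have k6 : (0 : ℚ) ≤ s * (Pi.single i (1 : ℚ) : ι → ℚ) j := by
        refine mul_nonneg k3.le ?_
        rw [Pi.single_apply]
        split_ifs <;> norm_num
      have k7 : s * q.1 j ≤ p.1 j := by
        by_cases hj : j ∈ S
        · exact k4 j hj
        · rw [k1 j hj, hp j hj, mul_zero]
      simp only [Prod.fst_add, Prod.fst_sub, Prod.smul_fst, Pi.add_apply, Pi.sub_apply,
        Pi.smul_apply, smul_eq_mul, Pi.zero_apply]
      linarith
  · have := hy _ (single_mem hi)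
    rwa [ph_single, co_single] at this
  · obtain ⟨q, k1, k2⟩ := hsur d
    refine ⟨q.1, q.2, fun i => ?_, k1, k2.symm⟩
    by_cases hi : i ∈ S
    · have k3 := hd _ (hm _ (her i hi))
      rw [← hpx, ← k2, hco i hi p hp, hco i hi q k1] at k3
      have k4 := mul_pos (hpos i hi).1 (mul_self_pos.2 (hpos i hi).2)
      by_contra k5
      have k6 : q.1 i < 0 := not_le.1 k5
      nlinarith
    · exact (k1 i hi).ge

end Pool.Agent.MP_ee8c61_ag.M3CH
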